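import Mathlib

set_option autoImplicit false

open Set Ordinal Topology

namespace Pool.Agent.R190.Spr

/-! ### Finite height of closed sets -/

section
variable {X Y : Type*} [TopologicalSpace X] [TopologicalSpace Y]

/-- height at most `m` -/
def Ht {X : Type*} [TopologicalSpace X] : ℕ → Set X → Prop
  | 0, B => B = ∅
  | m + 1, B => ∃ F : Set X, F.Finite ∧ ∀ B' ⊆ B, IsClosed B' → Disjoint B' F → Ht m B'

lemma Ht.mono {m : ℕ} {B B' : Set X} (h : Ht m B) (hB : B' ⊆ B) : Ht m B' := by
  cases m with
  | zero =>
    have : B = ∅ := h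
    change B' = ∅
    exact subset_empty_iff.1 (this ▸ hB)
  | succ m =>
    obtain ⟨F, hF, h⟩ := h
    exact ⟨F, hF, fun C hC => h C (hC.trans hB)⟩

lemma Ht.succ {m : ℕ} {B : Set X} (h : Ht m B) : Ht (m + 1) B :=
  ⟨∅, finite_empty, fun _ hB' _ _ => h.mono hB'⟩

lemma Ht.empty (m : ℕ) : Ht m (∅ : Set X) := by
  induction m with
  | zero => rfl
  | succ m ih => exact ih.succ

lemma Ht.union {m : ℕ} {B C : Set X} (hB : IsClosed B) (hC : IsClosed C) (h1 : Ht m B)
    (h2 : Ht m C) : Ht m (B ∪ C) := by
  induction m generalizing B C with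
  | zero =>
    have e1 : B = ∅ := h1
    have e2 : C = ∅ := h2
    change B ∪ C = ∅
    rw [e1, e2, empty_union]
  | succ m ih =>
    obtain ⟨F, hF, h1⟩ := h1
    obtain ⟨G, hG, h2⟩ := h2
    refine ⟨F ∪ G, hF.union hG, fun D hD hDc hdis => ?_⟩
    rw [disjoint_union_right] at hdis
    have e : D = (D ∩ B) ∪ (D ∩ C) := by
      rw [← inter_union_distrib_left, inter_eq_left.2 hD]
    rw [e]
    exact ih (hDc.inter hB) (hDc.inter hC)
      (h1 _ inter_subset_right (hDc.inter hB) (hdis.1.mono_left inter_subset_left))
      (h2 _ inter_subset_right (hDc.inter hC) (hdis.2.mono_left inter_subset_left))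

lemma Ht.of_image {e : X → Y} (he : IsClosedEmbedding e) {m : ℕ} {B : Set X}
    (h : Ht m (e '' B)) : Ht m B := by
  induction m generalizing B with
  | zero =>
    have : e '' B = ∅ := h
    exact image_eq_empty.1 this
  | succ m ih =>
    obtain ⟨F, hF, h⟩ := h
    refine ⟨e ⁻¹' F, hF.preimage he.injective.injOn, fun D hD hDc hdis => ?_⟩
    refine ih (h _ (image_mono hD) (he.isClosedMap _ hDc) ?_)
    rw [Set.disjoint_left]
    rintro _ ⟨x, hx, rfl⟩ hF'
    exact Set.disjoint_left.1 hdis hx hF'

end

/-! ### Intervals of ordinals -/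

lemma isClosed_Ioc (a b : Ordinal.{0}) : IsClosed (Ioc a b) := by
  have : Ioc a b = Icc (Order.succ a) b := by
    ext x; simp
  rw [this]; exact isClosed_Icc

lemma isOpen_Ioc (a b : Ordinal.{0}) : IsOpen (Ioc a b) := by
  have : Ioc a b = Ioo a (Order.succ b) := by
    ext x; simp
  rw [this]; exact isOpen_Ioo

lemma ht_Ioc (N : ℕ) : ∀ a c : Ordinal.{0}, c < ω ^ N → Ht N (Ioc a (a + c)) := by
  induction N with
  | zero =>
    intro a c hc
    rw [pow_zero] at hc
    have : c = 0 := Order.lt_one_iff.1 hc
    rw [this, add_zero, Ioc_self]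
    exact Ht.empty _
  | succ N ih =>
    intro a c hc
    rw [pow_succ] at hc
    obtain ⟨q, hq, t, ht, rfl⟩ := Ordinal.lt_mul_iff.1 hc
    obtain ⟨m, rfl⟩ := Ordinal.lt_omega0.1 hq
    -- closed sets which avoid the endpoints
    have key : ∀ (m : ℕ) (B : Set Ordinal.{0}), IsClosed B → B ⊆ Ioc a (a + ω ^ N * m) →
        Disjoint B ((fun j : ℕ => a + ω ^ N * j) '' Iic m) → Ht N B := by
      intro m
      induction m with
      | zero =>
        intro B _ hB _
        rw [Nat.cast_zero, mul_zero, add_zero, Ioc_self] at hB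
        rw [subset_empty_iff.1 hB]
        exact Ht.empty _
      | succ m ihm =>
        intro B hBc hB hdis
        set a' := a + ω ^ N * m with ha'
        have ha2 : a + ω ^ N * ((m + 1 : ℕ) : Ordinal) = a' + ω ^ N := by
          rw [Nat.cast_succ, mul_add, mul_one, ha', add_assoc]
        rw [ha2] at hB
        have e : B = (B ∩ Ioc a a') ∪ (B ∩ Ioc a' (a' + ω ^ N)) := by
          ext x
          constructor
          · intro hx
            have := hB hx
            rcases le_or_gt x a' with h | h
            · exact Or.inl ⟨hx, this.1, h⟩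
            · exact Or.inr ⟨hx, h, this.2⟩
          · rintro (hx | hx) <;> exact hx.1
        rw [e]
        refine Ht.union (hBc.inter (isClosed_Ioc _ _)) (hBc.inter (isClosed_Ioc _ _)) ?_ ?_
        · refine ihm _ (hBc.inter (isClosed_Ioc _ _)) inter_subset_right ?_
          refine (hdis.mono_left inter_subset_left).mono_right ?_
          exact image_mono (Iic_subset_Iic.2 (Nat.le_succ m))
        · -- bounded away from the endpoint
          set D := B ∩ Ioc a' (a' + ω ^ N) with hD
          have hDc : IsClosed D := hBc.inter (isClosed_Ioc _ _)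
          rcases D.eq_empty_or_nonempty with h0 | h0
          · rw [h0]; exact Ht.empty _
          · have hcomp : IsCompact D := by
              refine (isCompact_Icc (a := a') (b := a' + ω ^ N)).of_isClosed_subset hDc ?_
              exact fun x hx => ⟨hx.2.1.le, hx.2.2⟩
            obtain ⟨μ, hμ1, hμ2⟩ := hcomp.exists_isGreatest h0
            have hlt : μ < a' + ω ^ N := by
              refine lt_of_le_of_ne hμ1.2.2 fun h => ?_
              refine Set.disjoint_left.1 hdis hμ1.1 ⟨m + 1, mem_Iic.2 le_rfl, ?_⟩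
              rw [h]; exact ha2
            have hsub : μ - a' < ω ^ N := by
              rw [← add_lt_add_iff_left a', Ordinal.add_sub_cancel_of_le hμ1.2.1.le]
              exact hlt
            refine (ih a' (μ - a') hsub).mono ?_
            intro x hx
            refine ⟨hx.2.1, ?_⟩
            rw [Ordinal.add_sub_cancel_of_le hμ1.2.1.le]
            exact hμ2 hx
    refine ⟨(fun j : ℕ => a + ω ^ N * j) '' Iic (m + 1), (finite_Iic _).image _,
      fun B hB hBc hdis => ?_⟩
    refine key (m + 1) B hBc (hB.trans ?_) hdis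
    apply Ioc_subset_Ioc le_rfl
    rw [Nat.cast_succ, mul_add, mul_one]
    exact add_le_add le_rfl (add_le_add le_rfl ht.le)

end Pool.Agent.R190.Spr
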