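import Mathlib
import Pool.Agent.R190.Spr.Ht

set_option autoImplicit false

open Set Ordinal Topology

namespace Pool.Agent.R190.Spr

/-- The ordinal interval `[1, ω ^ ω]`. -/
abbrev K : Type 1 := ↥(Set.Icc (1 : Ordinal.{0}) (ω ^ ω))

lemma emb : IsClosedEmbedding (Subtype.val : K → Ordinal.{0}) :=
  isClosed_Icc.isClosedEmbedding_subtypeVal

/-- indicator functions of intervals -/
noncomputable def ind (a b : Ordinal.{0}) : C(K, ℝ) where
  toFun := indicator (Subtype.val ⁻¹' Ioc a b) (fun _ => 1)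
  continuous_toFun := by
    have h : IsClopen (Subtype.val ⁻¹' Ioc a b : Set K) :=
      ⟨(isClosed_Ioc a b).preimage continuous_subtype_val,
        (isOpen_Ioc a b).preimage continuous_subtype_val⟩
    exact h.continuous_indicator continuous_const

lemma ind_of_mem {a b : Ordinal.{0}} {k : K} (h : k.1 ∈ Ioc a b) : ind a b k = 1 :=
  indicator_of_mem (s := (Subtype.val ⁻¹' Ioc a b : Set K)) h (fun _ => (1 : ℝ))

lemma ind_of_notMem {a b : Ordinal.{0}} {k : K} (h : k.1 ∉ Ioc a b) : ind a b k = 0 :=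
  indicator_of_notMem (s := (Subtype.val ⁻¹' Ioc a b : Set K)) h (fun _ => (1 : ℝ))

lemma ind_nonneg (a b : Ordinal.{0}) (k : K) : 0 ≤ ind a b k := by
  by_cases h : k.1 ∈ Ioc a b
  · rw [ind_of_mem h]; exact zero_le_one
  · rw [ind_of_notMem h]

lemma norm_ind_le (a b : Ordinal.{0}) : ‖ind a b‖ ≤ 1 := by
  rw [ContinuousMap.norm_le _ zero_le_one]
  intro k
  by_cases h : k.1 ∈ Ioc a b
  · rw [ind_of_mem h, norm_one]
  · rw [ind_of_notMem h, norm_zero]; exact zero_le_one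

variable (T : C(K, ℝ) →L[ℝ] C(K, ℝ))

lemma norm_T_ind_le (a b : Ordinal.{0}) : ‖T (ind a b)‖ ≤ ‖T‖ := by
  calc ‖T (ind a b)‖ ≤ ‖T‖ * ‖ind a b‖ := T.le_opNorm _
    _ ≤ ‖T‖ * 1 := mul_le_mul_of_nonneg_left (norm_ind_le a b) T.opNorm_nonneg
    _ = ‖T‖ := mul_one _

/-- sums over disjoint intervals -/
lemma sum_le {a b : ℕ → Ordinal.{0}} (h : ∀ m m', m < m' → b m ≤ a m') (k : K) (S : Finset ℕ) :
    ∑ m ∈ S, |T (ind (a m) (b m)) k| ≤ ‖T‖ := by
  -- the signs
  have hs : ∀ m, ∃ s : ℝ, |s| ≤ 1 ∧ s * T (ind (a m) (b m)) k = |T (ind (a m) (b m)) k| := by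
    intro m
    rcases le_total 0 (T (ind (a m) (b m)) k) with h0 | h0
    · exact ⟨1, by simp, by rw [abs_of_nonneg h0, one_mul]⟩
    · exact ⟨-1, by simp, by rw [abs_of_nonpos h0]; ring⟩
  choose s hs1 hs2 using hs
  set u : C(K, ℝ) := ∑ m ∈ S, s m • ind (a m) (b m) with hu
  have hun : ‖u‖ ≤ 1 := by
    rw [ContinuousMap.norm_le _ zero_le_one]
    intro x
    have e : u x = ∑ m ∈ S, s m * ind (a m) (b m) x := by
      rw [hu]; simp
    rw [e]
    by_cases hx : ∃ m ∈ S, x.1 ∈ Ioc (a m) (b m)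
    · obtain ⟨m0, hm0, hx0⟩ := hx
      rw [Finset.sum_eq_single m0]
      · rw [ind_of_mem hx0, mul_one]; exact hs1 m0
      · intro m _ hm
        rw [ind_of_notMem, mul_zero]
        intro hx1
        rcases lt_or_gt_of_ne hm with h1 | h1
        · exact absurd ((hx1.2.trans (h m m0 h1)).trans_lt hx0.1) (lt_irrefl _)
        · exact absurd ((hx0.2.trans (h m0 m h1)).trans_lt hx1.1) (lt_irrefl _)
      · intro h1; exact absurd hm0 h1
    · push Not at hx
      rw [Finset.sum_eq_zero]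
      · simp
      · intro m hm
        rw [ind_of_notMem (hx m hm), mul_zero]
  have e1 : T u k = ∑ m ∈ S, |T (ind (a m) (b m)) k| := by
    rw [hu, map_sum, ContinuousMap.sum_apply]
    refine Finset.sum_congr rfl fun m _ => ?_
    rw [map_smul, ContinuousMap.smul_apply, _root_.smul_eq_mul, hs2]
  calc ∑ m ∈ S, |T (ind (a m) (b m)) k| = T u k := e1.symm
    _ ≤ |T u k| := le_abs_self _
    _ ≤ ‖T u‖ := ContinuousMap.norm_coe_le_norm (T u) k
    _ ≤ ‖T‖ * ‖u‖ := T.le_opNorm u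
    _ ≤ ‖T‖ * 1 := mul_le_mul_of_nonneg_left hun T.opNorm_nonneg
    _ = ‖T‖ := mul_one _

/-- choosing a child which is small on a finite set -/
lemma exists_small {a b : ℕ → Ordinal.{0}} (h : ∀ m m', m < m' → b m ≤ a m') {F : Set K}
    (hF : F.Finite) {ε : ℝ} (hε : 0 < ε) : ∃ m, ∀ k ∈ F, |T (ind (a m) (b m)) k| < ε := by
  have hfin : ∀ k, {m | ε ≤ |T (ind (a m) (b m)) k|}.Finite := by
    intro k
    by_contra hinf
    obtain ⟨n, hn⟩ := exists_nat_gt (‖T‖ / ε)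
    obtain ⟨S, hS, hcard⟩ := Set.Infinite.exists_subset_card_eq hinf n
    have h1 := sum_le T h k S
    have h2 : ∑ m ∈ S, ε ≤ ∑ m ∈ S, |T (ind (a m) (b m)) k| :=
      Finset.sum_le_sum fun m hm => hS hm
    rw [Finset.sum_const, hcard, _root_.nsmul_eq_mul] at h2
    rw [div_lt_iff₀ hε] at hn
    linarith
  have hfin2 : (⋃ k ∈ F, {m | ε ≤ |T (ind (a m) (b m)) k|}).Finite :=
    hF.biUnion fun k _ => hfin k
  obtain ⟨m, hm⟩ := hfin2.exists_notMem
  refine ⟨m, fun k hk => ?_⟩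
  by_contra hcon
  exact hm (mem_biUnion hk (not_lt.1 hcon))

/-! ### Counting -/

open Classical in
/-- the number of functions in a list that are large at a point -/
noncomputable def cnt (ε : ℝ) : List C(K, ℝ) → K → ℕ
  | [], _ => 0
  | g :: L, k => cnt ε L k + if ε ≤ |g k| then 1 else 0

/-- points of `A` with large count -/
def EE (ε : ℝ) (A : Set K) (L : List C(K, ℝ)) (r : ℕ) : Set K := {k | k ∈ A ∧ r ≤ cnt ε L k}

lemma EE_cons_sub (ε : ℝ) (A : Set K) (g : C(K, ℝ)) (L : List C(K, ℝ)) (r : ℕ) :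
    EE ε A (g :: L) (r + 1) = EE ε A L (r + 1) ∪ (EE ε A L r ∩ {k | ε ≤ |g k|}) := by
  ext k
  simp only [EE, mem_ofPred_eq, mem_union, mem_inter_iff, cnt]
  constructor
  · rintro ⟨h1, h2⟩
    split_ifs at h2 with h3
    · exact Or.inr ⟨⟨h1, by omega⟩, h3⟩
    · exact Or.inl ⟨h1, by omega⟩
  · rintro (⟨h1, h2⟩ | ⟨⟨h1, h2⟩, h3⟩)
    · exact ⟨h1, by omega⟩
    · exact ⟨h1, by rw [if_pos h3]; omega⟩

lemma EE_zero (ε : ℝ) (A : Set K) (L : List C(K, ℝ)) : EE ε A L 0 = A := by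
  ext k; simp [EE]

lemma EE_closed {ε : ℝ} {A : Set K} (hA : IsClosed A) (L : List C(K, ℝ)) (r : ℕ) :
    IsClosed (EE ε A L r) := by
  induction L generalizing r with
  | nil =>
    cases r with
    | zero => rw [EE_zero]; exact hA
    | succ r =>
      have : EE ε A [] (r + 1) = ∅ := by ext k; simp [EE, cnt]
      rw [this]; exact isClosed_empty
  | cons g L ih =>
    cases r with
    | zero => rw [EE_zero]; exact hA
    | succ r =>
      rw [EE_cons_sub]
      refine (ih (r + 1)).union ((ih r).inter ?_)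
      exact isClosed_le continuous_const (continuous_abs.comp g.continuous)

lemma abs_sum_le {ε M : ℝ} (hε : 0 ≤ ε) {L : List C(K, ℝ)} (hL : ∀ g ∈ L, ‖g‖ ≤ M) (k : K) :
    |L.sum k| ≤ cnt ε L k * M + L.length * ε := by
  induction L with
  | nil => simp [cnt]
  | cons g L ih =>
    have h1 := ih fun g' hg' => hL g' (List.mem_cons_of_mem _ hg')
    have h2 : |g k| ≤ M := (ContinuousMap.norm_coe_le_norm g k).trans (hL g List.mem_cons_self)
    rw [List.sum_cons, ContinuousMap.add_apply, cnt, List.length_cons]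
    have h3 : |g k| ≤ (if ε ≤ |g k| then 1 else 0 : ℕ) * M + ε := by
      split_ifs with h
      · push_cast; linarith
      · push_cast; push Not at h; linarith
    have h4 := abs_add_le (g k) (L.sum k)
    push_cast at h3 ⊢
    linarith

/-- the chain of intervals -/
lemma chain {A : Set K} (hA : IsClosed A) {N : ℕ} (hN : Ht N A) {ε : ℝ} (hε : 0 < ε) (n : ℕ) :
    ∀ i ≤ n, ∃ (L : List C(K, ℝ)) (v : C(K, ℝ)) (a : Ordinal.{0}), L.length = i ∧
      T v = L.sum ∧ (∀ g ∈ L, ‖g‖ ≤ ‖T‖) ∧ a + ω ^ (n - i) ≤ ω ^ n ∧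
      (∀ k : K, k.1 ∈ Ioc a (a + ω ^ (n - i)) → v k = i) ∧
      ∀ r ≤ N, Ht (N - r) (EE ε A L r) := by
  intro i
  induction i with
  | zero =>
    intro _
    refine ⟨[], 0, 0, rfl, by simp, by simp, by simp, fun k _ => by simp, fun r _ => ?_⟩
    cases r with
    | zero => rw [EE_zero, Nat.sub_zero]; exact hN
    | succ r =>
      have : EE ε A [] (r + 1) = ∅ := by ext k; simp [EE, cnt]
      rw [this]; exact Ht.empty _
  | succ i ih =>
    intro hi
    obtain ⟨L, v, a, hlen, hsum, hnorm, ha, hv, hht⟩ := ih (by omega)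
    obtain ⟨j, hj⟩ : ∃ j, n - i = j + 1 := ⟨n - i - 1, by omega⟩
    have hj' : n - (i + 1) = j := by omega
    rw [hj] at ha hv
    -- the finite set
    have hF : ∀ r : ℕ, ∃ F : Set K, F.Finite ∧ (r < N → ∀ B' ⊆ EE ε A L r, IsClosed B' →
        Disjoint B' F → Ht (N - (r + 1)) B') := by
      intro r
      by_cases hr : r < N
      · have h1 := hht r hr.le
        have h2 : N - r = (N - (r + 1)) + 1 := by omega
        rw [h2] at h1
        obtain ⟨F, hF1, hF2⟩ := h1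
        exact ⟨F, hF1, fun _ => hF2⟩
      · exact ⟨∅, finite_empty, fun h => absurd h hr⟩
    choose F hF1 hF2 using hF
    have hFfin : (⋃ r ∈ Iio N, F r).Finite := (finite_Iio N).biUnion fun r _ => hF1 r
    -- the children
    let aa : ℕ → Ordinal.{0} := fun m => a + ω ^ j * m
    let bb : ℕ → Ordinal.{0} := fun m => a + ω ^ j * m + ω ^ j
    have hbb : ∀ m : ℕ, bb m = a + ω ^ j * ((m + 1 : ℕ) : Ordinal) := by
      intro m
      simp only [bb]
      rw [Nat.cast_succ, mul_add, mul_one, add_assoc]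
    have hmono : ∀ m m' : ℕ, m ≤ m' → a + ω ^ j * (m : Ordinal) ≤ a + ω ^ j * (m' : Ordinal) := by
      intro m m' h
      have : (m : Ordinal.{0}) ≤ m' := by exact_mod_cast h
      gcongr
    have hab : ∀ m m', m < m' → bb m ≤ aa m' := by
      intro m m' h
      rw [hbb]
      exact hmono _ _ h
    obtain ⟨m, hm⟩ := exists_small T hab hFfin hε
    have hbbtop : bb m ≤ a + ω ^ (j + 1) := by
      rw [hbb, pow_succ]
      gcongr
      exact (Ordinal.natCast_lt_omega0 _).le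
    refine ⟨T (ind (aa m) (bb m)) :: L, v + ind (aa m) (bb m), aa m, ?_, ?_, ?_, ?_, ?_, ?_⟩
    · rw [List.length_cons, hlen]
    · rw [map_add, hsum, List.sum_cons, add_comm]
    · intro g hg
      rcases List.mem_cons.1 hg with rfl | hg
      · exact norm_T_ind_le T _ _
      · exact hnorm g hg
    · rw [hj']; exact hbbtop.trans ha
    · intro k hk
      rw [hj'] at hk
      rw [ContinuousMap.add_apply, ind_of_mem hk, hv k ?_]
      · push_cast; ring
      · refine ⟨lt_of_le_of_lt ?_ hk.1, hk.2.trans hbbtop⟩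
        exact le_self_add
    · intro r hr
      cases r with
      | zero => rw [EE_zero, Nat.sub_zero]; exact hN
      | succ r =>
        rw [EE_cons_sub]
        have hcl : IsClosed {k : K | ε ≤ |T (ind (aa m) (bb m)) k|} :=
          isClosed_le continuous_const (continuous_abs.comp (T (ind (aa m) (bb m))).continuous)
        refine Ht.union (EE_closed hA _ _) ((EE_closed hA _ _).inter hcl) (hht (r + 1) hr) ?_
        refine hF2 r (by omega) _ inter_subset_left ((EE_closed hA _ _).inter hcl) ?_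
        rw [Set.disjoint_left]
        rintro k ⟨_, hk1⟩ hk2
        have h1 : k ∈ ⋃ r ∈ Iio N, F r := mem_biUnion (show r ∈ Iio N from by
          rw [mem_Iio]; omega) hk2
        have h2 := hm k h1
        exact absurd (lt_of_le_of_lt hk1 h2) (lt_irrefl _)

/-- no embedding into continuous functions on a set of finite height -/
lemma no_embedding {A : Set K} (hA : IsClosed A) {N : ℕ} (hN : Ht N A) {c : ℝ} (hc : 0 < c)
    (h : ∀ v : C(K, ℝ), v ≠ 0 → ∃ k ∈ A, c * ‖v‖ ≤ |T v k|) : False := by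
  obtain ⟨n, hn⟩ := exists_nat_gt (N * ‖T‖ / (c / 2))
  have hn0 : 0 < n := by
    have h1 : (0 : ℝ) ≤ N * ‖T‖ / (c / 2) := by positivity
    have h2 : (0 : ℝ) < n := lt_of_le_of_lt h1 hn
    exact_mod_cast h2
  obtain ⟨L, v, a, hlen, hsum, hnorm, ha, hv, hht⟩ :=
    chain T hA hN (ε := c / 2) (by positivity) n n le_rfl
  rw [Nat.sub_self, pow_zero] at ha hv
  -- the point `a + 1`
  have hk : a + 1 ∈ Icc (1 : Ordinal.{0}) (ω ^ ω) := by
    refine ⟨le_add_self, ha.trans ?_⟩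
    rw [← opow_natCast]
    exact opow_le_opow_right omega0_pos (natCast_lt_omega0 n).le
  have hvk : v ⟨a + 1, hk⟩ = n := hv _ ⟨Order.lt_add_one_iff.2 le_rfl, le_rfl⟩
  have hvn : (n : ℝ) ≤ ‖v‖ := by
    rw [← hvk]
    exact (le_abs_self _).trans (ContinuousMap.norm_coe_le_norm v _)
  have hv0 : v ≠ 0 := by
    rintro rfl
    rw [norm_zero] at hvn
    have : (0 : ℝ) < n := by exact_mod_cast hn0
    linarith
  obtain ⟨k, hkA, hk2⟩ := h v hv0
  have hcnt : cnt (c / 2) L k < N := by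
    have h1 := hht N le_rfl
    rw [Nat.sub_self] at h1
    have h2 : EE (c / 2) A L N = ∅ := h1
    by_contra hcon
    push Not at hcon
    have : k ∈ EE (c / 2) A L N := ⟨hkA, hcon⟩
    rw [h2] at this
    exact this
  have h3 := abs_sum_le (ε := c / 2) (by positivity) hnorm k
  rw [← hsum, hlen] at h3
  have h4 : (cnt (c / 2) L k : ℝ) * ‖T‖ ≤ N * ‖T‖ := by
    have : (cnt (c / 2) L k : ℝ) ≤ N := by exact_mod_cast hcnt.le
    exact mul_le_mul_of_nonneg_right this T.opNorm_nonneg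
  have h5 : c * n ≤ c * ‖v‖ := mul_le_mul_of_nonneg_left hvn hc.le
  rw [div_lt_iff₀ (by positivity)] at hn
  nlinarith

/-- an element of norm attained -/
lemma exists_norm (h : C(K, ℝ)) : ∃ k, ‖h‖ = |h k| := by
  have : Nonempty K := ⟨⟨1, le_rfl, Order.one_le_iff_pos.2 (opow_pos _ omega0_pos)⟩⟩
  obtain ⟨k, -, hk⟩ := isCompact_univ.exists_isMaxOn univ_nonempty
    (continuous_abs.comp h.continuous).continuousOn
  refine ⟨k, le_antisymm ?_ (ContinuousMap.norm_coe_le_norm h k)⟩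
  rw [ContinuousMap.norm_le _ (abs_nonneg _)]
  exact fun x => hk (mem_univ x)

lemma two_min (a b : ℝ) : |(|a + b| - |a - b|)| = 2 * min |a| |b| := by
  rcases le_total |a| |b| with h | h
  · rw [min_eq_left h]
    rcases abs_cases a with ⟨h1, h2⟩ | ⟨h1, h2⟩ <;> rcases abs_cases b with ⟨h3, h4⟩ | ⟨h3, h4⟩ <;>
    rcases abs_cases (a + b) with ⟨h5, h6⟩ | ⟨h5, h6⟩ <;>
    rcases abs_cases (a - b) with ⟨h7, h8⟩ | ⟨h7, h8⟩ <;>
    rcases abs_cases (|a + b| - |a - b|) with ⟨h9, h10⟩ | ⟨h9, h10⟩ <;> linarith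
  · rw [min_eq_right h]
    rcases abs_cases a with ⟨h1, h2⟩ | ⟨h1, h2⟩ <;> rcases abs_cases b with ⟨h3, h4⟩ | ⟨h3, h4⟩ <;>
    rcases abs_cases (a + b) with ⟨h5, h6⟩ | ⟨h5, h6⟩ <;>
    rcases abs_cases (a - b) with ⟨h7, h8⟩ | ⟨h7, h8⟩ <;>
    rcases abs_cases (|a + b| - |a - b|) with ⟨h9, h10⟩ | ⟨h9, h10⟩ <;> linarith

theorem main {c : ℝ} (hc : 0 < c) (hT : ∀ v, c * ‖v‖ ≤ ‖T v‖) (C : ℝ) :
    ∃ f ∈ range T, ∃ g ∈ range T, C * ‖|f| - |g|‖ < min ‖f - g‖ ‖f + g‖ := by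
  by_contra hcon
  push Not at hcon
  have hspr : ∀ f ∈ range T, ∀ g ∈ range T, min ‖f - g‖ ‖f + g‖ ≤ C * ‖|f| - |g|‖ := hcon
  -- lower bound for points
  have hind : ∀ m : ℕ, 1 ≤ ‖ind (m : Ordinal.{0}) ((m : Ordinal.{0}) + 1)‖ := by
    intro m
    have hk : (m : Ordinal.{0}) + 1 ∈ Icc (1 : Ordinal.{0}) (ω ^ ω) := by
      refine ⟨le_add_self, ?_⟩
      have h1 : ((m + 1 : ℕ) : Ordinal.{0}) ≤ ω := (natCast_lt_omega0 _).le
      rw [Nat.cast_succ] at h1
      exact h1.trans (left_le_opow ω omega0_pos)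
    have h1 : ind (m : Ordinal.{0}) ((m : Ordinal.{0}) + 1) ⟨_, hk⟩ = 1 :=
      ind_of_mem ⟨Order.lt_add_one_iff.2 le_rfl, le_rfl⟩
    rw [← h1]
    exact (le_abs_self _).trans (ContinuousMap.norm_coe_le_norm (ind (m : Ordinal.{0})
      ((m : Ordinal.{0}) + 1)) _)
  -- `C` is positive
  have hC : 0 < C := by
    by_contra hC
    push Not at hC
    have h1 := hspr (T (ind (0 : ℕ) ((0 : ℕ) + 1))) ⟨_, rfl⟩ 0 ⟨0, map_zero T⟩
    rw [_root_.sub_zero, _root_.add_zero, min_self] at h1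
    have h2 := hT (ind ((0 : ℕ) : Ordinal.{0}) (((0 : ℕ) : Ordinal.{0}) + 1))
    have h3 := hind 0
    have h4 : C * ‖|T (ind ((0 : ℕ) : Ordinal.{0}) (((0 : ℕ) : Ordinal.{0}) + 1))| - |0|‖ ≤ 0 :=
      mul_nonpos_of_nonpos_of_nonneg hC (norm_nonneg _)
    have h5 : c * 1 ≤ c * ‖ind ((0 : ℕ) : Ordinal.{0}) (((0 : ℕ) : Ordinal.{0}) + 1)‖ :=
      mul_le_mul_of_nonneg_left h3 hc.le
    linarith
  -- Step 1
  have step1 : ∀ u v, ∃ k, min ‖T u‖ ‖T v‖ ≤ C * min |T u k| |T v k| := by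
    intro u v
    have h1 := hspr (T (u + v)) ⟨_, rfl⟩ (T (u - v)) ⟨_, rfl⟩
    have e1 : T (u + v) - T (u - v) = (2 : ℝ) • T v := by
      rw [map_add, map_sub, two_smul]; abel
    have e2 : T (u + v) + T (u - v) = (2 : ℝ) • T u := by
      rw [map_add, map_sub, two_smul]; abel
    obtain ⟨k, hk⟩ := exists_norm (|T (u + v)| - |T (u - v)|)
    have e3 : (|T (u + v)| - |T (u - v)|) k = |T u k + T v k| - |T u k - T v k| := by
      rw [ContinuousMap.sub_apply, ContinuousMap.abs_apply, ContinuousMap.abs_apply, map_add,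
        map_sub, ContinuousMap.add_apply, ContinuousMap.sub_apply]
    rw [e1, e2, hk, e3, two_min, norm_smul, norm_smul, Real.norm_eq_abs, abs_two,
      ← mul_min_of_nonneg _ _ zero_le_two] at h1
    refine ⟨k, ?_⟩
    rw [min_comm ‖T u‖]
    linarith
  -- Step 2
  have hδ : 0 < c / C := div_pos hc hC
  obtain ⟨m, hm⟩ := exists_small T (a := fun m : ℕ => (m : Ordinal.{0}))
    (b := fun m : ℕ => (m : Ordinal.{0}) + 1) (fun m m' h => by
      have : ((m + 1 : ℕ) : Ordinal.{0}) ≤ m' := by exact_mod_cast h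
      rwa [Nat.cast_succ] at this)
    (F := {(⟨ω ^ ω, ⟨Order.one_le_iff_pos.2 (opow_pos _ omega0_pos), le_rfl⟩⟩ : K)})
    (finite_singleton _) hδ
  set w := T (ind (m : Ordinal.{0}) ((m : Ordinal.{0}) + 1)) with hw
  have hwΩ := hm _ rfl
  set A : Set K := {k | c / C ≤ |w k|} with hA
  have hAc : IsClosed A := isClosed_le continuous_const (continuous_abs.comp w.continuous)
  have hwn : c ≤ ‖w‖ := by
    have h1 := hT (ind (m : Ordinal.{0}) ((m : Ordinal.{0}) + 1))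
    have h2 : c * 1 ≤ c * ‖ind (m : Ordinal.{0}) ((m : Ordinal.{0}) + 1)‖ :=
      mul_le_mul_of_nonneg_left (hind m) hc.le
    linarith
  -- finite height
  have hht : ∃ N, Ht N A := by
    rcases A.eq_empty_or_nonempty with h0 | h0
    · exact ⟨0, h0⟩
    have hcomp : IsCompact (Subtype.val '' A) := hAc.isCompact.image continuous_subtype_val
    obtain ⟨μ, ⟨k, hk, rfl⟩, hμ⟩ := hcomp.exists_isGreatest (h0.image _)
    have hlt : k.1 < ω ^ ω := by
      refine lt_of_le_of_ne k.2.2 fun h => ?_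
      have h1 : k = ⟨ω ^ ω, ⟨Order.one_le_iff_pos.2 (opow_pos _ omega0_pos), le_rfl⟩⟩ :=
        Subtype.ext h
      have h2 : c / C ≤ |w k| := hk
      rw [h1] at h2
      exact absurd (h2.trans_lt hwΩ) (lt_irrefl _)
    obtain ⟨b, hb1, hb2⟩ := (lt_opow_of_isSuccLimit omega0_ne_zero isSuccLimit_omega0).1 hlt
    obtain ⟨N, rfl⟩ := lt_omega0.1 hb1
    rw [opow_natCast] at hb2
    refine ⟨N, Ht.of_image emb ((ht_Ioc N 0 k.1 hb2).mono ?_)⟩
    intro x hx
    rw [zero_add]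
    obtain ⟨y, hy, rfl⟩ := hx
    exact ⟨lt_of_lt_of_le zero_lt_one y.2.1, hμ ⟨y, hy, rfl⟩⟩
  obtain ⟨N, hN⟩ := hht
  refine no_embedding T hAc hN hδ fun v hv => ?_
  have hvn : 0 < ‖v‖ := norm_pos_iff.2 hv
  obtain ⟨k, hk⟩ := step1 (ind (m : Ordinal.{0}) ((m : Ordinal.{0}) + 1)) (‖v‖⁻¹ • v)
  have h1 : c ≤ ‖T (‖v‖⁻¹ • v)‖ := by
    have := hT (‖v‖⁻¹ • v)
    rwa [norm_smul, norm_inv, norm_norm, inv_mul_cancel₀ hvn.ne', mul_one] at this
  have h2 : c ≤ C * min |w k| |T (‖v‖⁻¹ • v) k| := (le_min hwn h1).trans hk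
  have h3 : c / C ≤ min |w k| |T (‖v‖⁻¹ • v) k| := by
    rw [div_le_iff₀ hC]; linarith
  refine ⟨k, h3.trans (min_le_left _ _), ?_⟩
  have h4 := h3.trans (min_le_right _ _)
  rw [map_smul, ContinuousMap.smul_apply, _root_.smul_eq_mul, abs_mul, abs_of_pos (inv_pos.2 hvn),
    inv_mul_eq_div, le_div_iff₀ hvn] at h4
  exact h4

end Pool.Agent.R190.Spr
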